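import Pool.Agent.H33.HC.TA

set_option autoImplicit false

namespace Pool.Agent.H68.HC

open Pool.Agent.H33.HC

/-- global bounds from the two ranges -/
theorem spc_glob {T A : ℝ} {f f' : ℝ → ℂ} (hT : 0 < T) (hA : 0 ≤ A) (h : SlC T A f f') :
    ∀ t, 0 < t → ‖f t‖ ≤ 1 + A ∧ ‖f' t‖ ≤ A / t := by
  intro t ht
  rcases le_total t T with h1 | h1
  · obtain ⟨a, b⟩ := h.n1 t ht h1
    have hq : t / T ≤ 1 := (div_le_one hT).2 h1
    have hq0 : 0 ≤ t / T := (div_pos ht hT).le
    have hp : (t / T) ^ (1 / 4 : ℝ) ≤ 1 := Real.rpow_le_one hq0 hq (by norm_num)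
    constructor
    · have e : ‖f t‖ ≤ ‖f t - 1‖ + 1 := by
        have := norm_add_le (f t - 1) 1
        simpa using this
      have := mul_le_mul_of_nonneg_left hp hA
      linarith
    · have := mul_le_mul_of_nonneg_left hp (div_nonneg hA ht.le)
      linarith
  · obtain ⟨a, b⟩ := h.n2 t h1
    have hq : 1 ≤ t / T := (one_le_div hT).2 h1
    have hp : (t / T) ^ (-(1 / 4) : ℝ) ≤ 1 := Real.rpow_le_one_of_one_le_of_nonpos hq (by norm_num)
    constructor
    · have := mul_le_mul_of_nonneg_left hp hA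
      linarith
    · have := mul_le_mul_of_nonneg_left hp (div_nonneg hA ht.le)
      linarith

theorem spc_aux {f f' g g' : ℝ → ℂ} {T U A B : ℝ} (hT : 0 < T) (hTU : T ≤ U) (hA : 0 ≤ A)
    (hB : 0 ≤ B) (hf : SlC T A f f') (hg : SlC U B g g') :
    SlC T (2 * (1 + A) * (1 + B)) (fun t => f t * g t) (fun t => f' t * g t + f t * g' t) := by
  have hU : 0 < U := lt_of_lt_of_le hT hTU
  have cf : ContinuousOn f (Set.Ioi 0) := fun t ht => ((hf.der t ht).continuousAt).continuousWithinAt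
  have cg : ContinuousOn g (Set.Ioi 0) := fun t ht => ((hg.der t ht).continuousAt).continuousWithinAt
  have gf := spc_glob hT hA hf
  have gg := spc_glob hU hB hg
  refine ⟨fun t ht => (hf.der t ht).mul (hg.der t ht),
    (hf.con.mul cg).add (cf.mul hg.con), ?_, ?_⟩
  · intro t ht h1
    obtain ⟨a1, a2⟩ := hf.n1 t ht h1
    obtain ⟨b1, b2⟩ := hg.n1 t ht (h1.trans hTU)
    obtain ⟨f1, f2⟩ := gf t ht
    obtain ⟨g1, g2⟩ := gg t ht
    set w := (t / T) ^ (1 / 4 : ℝ) with hw
    have w0 : 0 ≤ w := Real.rpow_nonneg (div_pos ht hT).le _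
    have hwu : (t / U) ^ (1 / 4 : ℝ) ≤ w :=
      Real.rpow_le_rpow (div_pos ht hU).le (div_le_div_of_nonneg_left ht.le hT hTU) (by norm_num)
    have b1' : ‖g t - 1‖ ≤ B * w := b1.trans (mul_le_mul_of_nonneg_left hwu hB)
    have b2' : ‖g' t‖ ≤ B / t * w := b2.trans (mul_le_mul_of_nonneg_left hwu (div_nonneg hB ht.le))
    have it : 0 ≤ 1 / t := (one_div_pos.2 ht).le
    constructor
    · have e : f t * g t - 1 = (f t - 1) * g t + (g t - 1) := by ring
      calc ‖f t * g t - 1‖ = ‖(f t - 1) * g t + (g t - 1)‖ := by rw [e]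
        _ ≤ ‖f t - 1‖ * ‖g t‖ + ‖g t - 1‖ := by
            rw [← norm_mul]; exact norm_add_le _ _
        _ ≤ (A * w) * (1 + B) + B * w :=
            add_le_add (mul_le_mul a1 g1 (norm_nonneg _) (mul_nonneg hA w0)) b1'
        _ ≤ 2 * (1 + A) * (1 + B) * w := by
            nlinarith [mul_nonneg hA w0, mul_nonneg hB w0, mul_nonneg (mul_nonneg hA hB) w0]
    · calc ‖f' t * g t + f t * g' t‖ ≤ ‖f' t‖ * ‖g t‖ + ‖f t‖ * ‖g' t‖ := by
            rw [← norm_mul, ← norm_mul]; exact norm_add_le _ _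
        _ ≤ (A / t * w) * (1 + B) + (1 + A) * (B / t * w) :=
            add_le_add (mul_le_mul a2 g1 (norm_nonneg _) (mul_nonneg (div_nonneg hA ht.le) w0))
              (mul_le_mul f1 b2' (norm_nonneg _) (by linarith))
        _ = (A * (1 + B) + (1 + A) * B) * (w / t) := by ring
        _ ≤ (2 * (1 + A) * (1 + B)) * (w / t) := by
            refine mul_le_mul_of_nonneg_right ?_ (div_nonneg w0 ht.le)
            nlinarith [mul_nonneg hA hB]
        _ = 2 * (1 + A) * (1 + B) / t * w := by ring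
  · intro t h1
    have ht : 0 < t := lt_of_lt_of_le hT h1
    obtain ⟨a1, a2⟩ := hf.n2 t h1
    obtain ⟨f1, f2⟩ := gf t ht
    obtain ⟨g1, g2⟩ := gg t ht
    set w := (t / T) ^ (-(1 / 4) : ℝ) with hw
    have w0 : 0 ≤ w := Real.rpow_nonneg (div_pos ht hT).le _
    constructor
    · calc ‖f t * g t‖ = ‖f t‖ * ‖g t‖ := norm_mul _ _
        _ ≤ (A * w) * (1 + B) := mul_le_mul a1 g1 (norm_nonneg _) (mul_nonneg hA w0)
        _ ≤ 2 * (1 + A) * (1 + B) * w := by
            nlinarith [mul_nonneg hA w0, mul_nonneg hB w0, mul_nonneg (mul_nonneg hA hB) w0]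
    · calc ‖f' t * g t + f t * g' t‖ ≤ ‖f' t‖ * ‖g t‖ + ‖f t‖ * ‖g' t‖ := by
            rw [← norm_mul, ← norm_mul]; exact norm_add_le _ _
        _ ≤ (A / t * w) * (1 + B) + (A * w) * (B / t) :=
            add_le_add (mul_le_mul a2 g1 (norm_nonneg _) (mul_nonneg (div_nonneg hA ht.le) w0))
              (mul_le_mul a1 g2 (norm_nonneg _) (mul_nonneg hA w0))
        _ = (A * (1 + B) + A * B) * (w / t) := by ring
        _ ≤ (2 * (1 + A) * (1 + B)) * (w / t) := by
            refine mul_le_mul_of_nonneg_right ?_ (div_nonneg w0 ht.le)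
            nlinarith [mul_nonneg hA hB]
        _ = 2 * (1 + A) * (1 + B) / t * w := by ring

theorem pf_SPC : T_SPC := by
  intro f f' g g' T U A B hT hU hA hB hf hg
  rcases le_total T U with h | h
  · rw [min_eq_left h]
    exact spc_aux hT h hA hB hf hg
  · rw [min_eq_right h]
    have := spc_aux hU h hB hA hg hf
    have e1 : (fun t => f t * g t) = fun t => g t * f t := by funext t; ring
    have e2 : (fun t => f' t * g t + f t * g' t) = fun t => g' t * f t + g t * f' t := by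
      funext t; ring
    have e3 : 2 * (1 + A) * (1 + B) = 2 * (1 + B) * (1 + A) := by ring
    rw [e1, e2, e3]
    exact this

end Pool.Agent.H68.HC
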